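import Pool.Agent.Helper98_Mob.Ann
import Pool.Agent.Helper75_Mob.Transfer
import Pool.Agent.Helper48_Loc.GaussLaw

/-!
# TOL: polynomially small Green functions, at a suitable scale, imply localization
-/

set_option autoImplicit false
set_option linter.unusedSectionVars false

open MeasureTheory ProbabilityTheory Function

open scoped ENNReal BigOperators

noncomputable section

namespace Pool.Agent.LE.H42

open Pool.Agent.Anderson Pool.Agent.Loc Pool.Agent.Mob Pool.Agent.Helper54.Bal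
  Pool.Agent.Mob.H75

variable {d : ℕ}

/-! ### translations -/

theorem hop_add (x y a : Site d) : hop (x + a) (y + a) = hop x y := by
  unfold hop
  refine Finset.sum_congr rfl fun i _ => ?_
  have h1 : (y + a = x + a + Pi.single i 1) ↔ (y = x + Pi.single i 1) := by
    rw [add_right_comm, add_left_inj]
  have h2 : (y + a = x + a - Pi.single i 1) ↔ (y = x - Pi.single i 1) := by
    rw [add_sub_right_comm, add_left_inj]
  simp only [h1, h2]

/-- the translation of a finite set -/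
def trEquiv (a : Site d) {Λ Λ' : Finset (Site d)} (h : ∀ z, z ∈ Λ' ↔ z + a ∈ Λ) : Λ' ≃ Λ where
  toFun z := ⟨z + a, (h z).1 z.2⟩
  invFun z := ⟨z - a, (h _).2 (by rw [sub_add_cancel]; exact z.2)⟩
  left_inv z := by simp
  right_inv z := by simp

theorem RM_tau (V : Site d → ℝ) (a : Site d) {Λ Λ' : Finset (Site d)}
    (h : ∀ z, z ∈ Λ' ↔ z + a ∈ Λ) (E : ℝ) :
    RM (tau a V) Λ' E = (RM V Λ E).submatrix (trEquiv a h) (trEquiv a h) := by
  ext x y
  simp only [RM, HM, Matrix.sub_apply, Matrix.smul_apply, Matrix.of_apply,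
    Matrix.submatrix_apply, Matrix.one_apply, (trEquiv a h).injective.eq_iff]
  have e1 : ((trEquiv a h x : Λ) : Site d) = x + a := rfl
  have e2 : ((trEquiv a h y : Λ) : Site d) = y + a := rfl
  rw [e1, e2, hop_add]
  rfl

theorem det_tau (V : Site d → ℝ) (a : Site d) {Λ Λ' : Finset (Site d)}
    (h : ∀ z, z ∈ Λ' ↔ z + a ∈ Λ) (E : ℝ) : (RM (tau a V) Λ' E).det = (RM V Λ E).det := by
  rw [RM_tau V a h, Matrix.det_submatrix_equiv_self]

theorem gr_tau (V : Site d → ℝ) (a : Site d) {Λ Λ' : Finset (Site d)}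
    (h : ∀ z, z ∈ Λ' ↔ z + a ∈ Λ) (E : ℝ) (x y : Site d) :
    gr (tau a V) Λ' E x y = gr V Λ E (x + a) (y + a) := by
  unfold gr
  by_cases hxy : x ∈ Λ' ∧ y ∈ Λ'
  · have hxy' : x + a ∈ Λ ∧ y + a ∈ Λ := ⟨(h x).1 hxy.1, (h y).1 hxy.2⟩
    rw [dif_pos hxy, dif_pos hxy', RM_tau V a h, Matrix.inv_submatrix_equiv]
    rfl
  · rw [dif_neg hxy, dif_neg]
    rw [h x, h y] at hxy
    exact hxy

theorem mem_box_add (c a : Site d) (L : ℕ) (z : Site d) : z ∈ box c L ↔ z + a ∈ box (c + a) L := by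
  rw [mem_box, mem_box, sd_le_iff, sd_le_iff]
  refine forall_congr' fun i => ?_
  rw [Pi.add_apply, Pi.add_apply, add_sub_add_right_eq_sub]

theorem sd_add (x y a : Site d) : sd (x + a) (y + a) = sd x y := by
  unfold sd
  simp only [Pi.add_apply, add_sub_add_right_eq_sub]

theorem lintegral_PL_PP {ν : Measure ℝ} [IsProbabilityMeasure ν] (Λ : Finset (Site d))
    {f : (Site d → ℝ) → ℝ≥0∞} (hf : Measurable f) (ho : Only f Λ) :
    ∫⁻ V, f V ∂(PL ν Λ) = ∫⁻ V, f V ∂(PP d ν) := by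
  rw [← map_cut, lintegral_map hf (measurable_cut Λ)]
  refine lintegral_congr fun V => ho _ _ fun z hz => cut_apply hz V

theorem lintegral_pg_shift {ν : Measure ℝ} [IsProbabilityMeasure ν] (a : Site d)
    {Λ Λ' : Finset (Site d)} (h : ∀ z, z ∈ Λ' ↔ z + a ∈ Λ) (E : ℝ) (x y : Site d) :
    ∫⁻ V, pg Λ E (x + a) (y + a) V ∂(PL ν Λ) = ∫⁻ V, pg Λ' E x y V ∂(PL ν Λ') := by
  rw [lintegral_PL_PP Λ (measurable_pg _ _ _ _) (only_pg _ _ _ _),
    lintegral_PL_PP Λ' (measurable_pg _ _ _ _) (only_pg _ _ _ _),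
    ← (shiftInv_PP ν a).lintegral_comp (measurable_pg Λ' E x y)]
  refine lintegral_congr fun V => ?_
  unfold pg
  rw [gr_tau V a h]

theorem bulkInit_of_center {ν : Measure ℝ} [IsProbabilityMeasure ν] {L : ℕ} {ε E : ℝ}
    (h : ∀ u : Site d, sd 0 u = L →
      ∫⁻ V, pg (box 0 L) E 0 u V ∂(PL ν (box (0 : Site d) L)) ≤ ENNReal.ofReal ε) :
    BulkInit d ν L ε E := by
  intro x u hu
  have h1 : ∀ z : Site d, z ∈ box 0 L ↔ z + x ∈ box x L := by
    intro z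
    have := mem_box_add 0 x L z
    rwa [zero_add] at this
  have h2 := lintegral_pg_shift (ν := ν) x h1 E 0 (u - x)
  rw [zero_add, sub_add_cancel] at h2
  rw [h2]
  apply h
  have h3 := sd_add 0 (u - x) x
  rw [zero_add, sub_add_cancel] at h3
  rw [← h3, hu]

/-! ### the fixed energy -/

variable {ν : Measure ℝ} [IsProbabilityMeasure ν] {ρ : ℝ}

theorem pg_tail (hν : BddDens ν ρ) (Λ : Finset (Site d)) (E : ℝ) (x y : Site d)
    (S : Set (Site d → ℝ)) {t R : ℝ} (ht : 0 ≤ t) (hR : 0 ≤ R)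
    (hS : PL ν Λ S ≤ ENNReal.ofReal R) (h : ∀ V, V ∉ S → |gr V Λ E x y| ≤ t) :
    ∫⁻ V, pg Λ E x y V ∂(PL ν Λ) ≤
      ENNReal.ofReal (t ^ (1 / 8 : ℝ) + √((1 + 2 * √(6 * ρ)) * R)) := by
  have hρ := hν.1
  set B : Set (Site d → ℝ) := toMeasurable (PL ν Λ) S with hB
  have hBm : MeasurableSet B := measurableSet_toMeasurable _ _
  have hBR : PL ν Λ B ≤ ENNReal.ofReal R := by
    rw [hB, measure_toMeasurable]
    exact hS
  have hgood : ∀ V ∈ Bᶜ, pg Λ E x y V ≤ ENNReal.ofReal (t ^ (1 / 8 : ℝ)) := by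
    intro V hV
    have key := h V fun hc => hV (subset_toMeasurable _ _ hc)
    unfold pg p8
    exact ENNReal.ofReal_le_ofReal (Real.rpow_le_rpow (abs_nonneg _) key (by norm_num))
  calc ∫⁻ V, pg Λ E x y V ∂(PL ν Λ)
      = ∫⁻ V in B, pg Λ E x y V ∂(PL ν Λ) + ∫⁻ V in Bᶜ, pg Λ E x y V ∂(PL ν Λ) :=
        (lintegral_add_compl _ hBm).symm
    _ ≤ ENNReal.ofReal (√((1 + 2 * √(6 * ρ)) * R)) + ENNReal.ofReal (t ^ (1 / 8 : ℝ)) := by
        gcongr
        · exact H98.pg_event hν Λ E x y B hBm hR hBR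
        · calc ∫⁻ V in Bᶜ, pg Λ E x y V ∂(PL ν Λ)
              ≤ ∫⁻ V in Bᶜ, ENNReal.ofReal (t ^ (1 / 8 : ℝ)) ∂(PL ν Λ) :=
                setLIntegral_mono measurable_const hgood
            _ = ENNReal.ofReal (t ^ (1 / 8 : ℝ)) * PL ν Λ Bᶜ := by rw [setLIntegral_const]
            _ ≤ ENNReal.ofReal (t ^ (1 / 8 : ℝ)) * 1 := by
                gcongr
                exact prob_le_one
            _ = _ := mul_one _
    _ = ENNReal.ofReal (t ^ (1 / 8 : ℝ) + √((1 + 2 * √(6 * ρ)) * R)) := by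
        rw [← ENNReal.ofReal_add (by positivity) (by positivity), add_comm]

/-! ### the nearby energies -/

theorem gr_resolvent (V : Site d → ℝ) (Λ : Finset (Site d)) (E F : ℝ)
    (hE : (RM V Λ E).det ≠ 0) (hF : (RM V Λ F).det ≠ 0) (x y : Site d) :
    gr V Λ F x y = gr V Λ E x y + ∑ z ∈ Λ, (E - F) * (gr V Λ F x z * gr V Λ E z y) := by
  by_cases hxy : x ∈ Λ ∧ y ∈ Λ
  · have h1 : (RM V Λ F)⁻¹ = (RM V Λ E)⁻¹ + (E - F) • ((RM V Λ F)⁻¹ * (RM V Λ E)⁻¹) := by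
      have hE' : IsUnit (RM V Λ E).det := isUnit_iff_ne_zero.2 hE
      have hF' : IsUnit (RM V Λ F).det := isUnit_iff_ne_zero.2 hF
      have e : (E - F) • (1 : Matrix Λ Λ ℝ) = RM V Λ E - RM V Λ F := by
        unfold RM
        rw [sub_smul]
        abel
      have e2 : (E - F) • ((RM V Λ F)⁻¹ * (RM V Λ E)⁻¹) =
          (RM V Λ F)⁻¹ * ((E - F) • (1 : Matrix Λ Λ ℝ)) * (RM V Λ E)⁻¹ := by
        rw [Matrix.mul_smul, Matrix.mul_one, Matrix.smul_mul]
      rw [e2, e, Matrix.mul_sub, Matrix.sub_mul, Matrix.nonsing_inv_mul _ hF', Matrix.one_mul,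
        Matrix.mul_assoc, Matrix.mul_nonsing_inv _ hE', Matrix.mul_one]
      abel
    have h2 := congrFun (congrFun h1 ⟨x, hxy.1⟩) ⟨y, hxy.2⟩
    rw [Matrix.add_apply, Matrix.smul_apply, Matrix.mul_apply] at h2
    unfold gr
    rw [dif_pos hxy, dif_pos hxy, h2]
    congr 1
    rw [smul_eq_mul, Finset.mul_sum, ← Finset.sum_coe_sort Λ]
    refine Finset.sum_congr rfl fun z _ => ?_
    rw [dif_pos ⟨hxy.1, z.2⟩, dif_pos ⟨z.2, hxy.2⟩]
  · have h0 : ∀ G : ℝ, gr V Λ G x y = 0 := fun G => by unfold gr; rw [dif_neg hxy]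
    rw [h0, h0, zero_add]
    symm
    apply Finset.sum_eq_zero
    intro z _
    by_cases hx : x ∈ Λ
    · have hy : y ∉ Λ := fun hy => hxy ⟨hx, hy⟩
      have : gr V Λ E z y = 0 := by unfold gr; rw [dif_neg fun h => hy h.2]
      rw [this]; ring
    · have : gr V Λ F x z = 0 := by unfold gr; rw [dif_neg fun h => hx h.1]
      rw [this]; ring

theorem pg_sq (hν : BddDens ν ρ) (Λ : Finset (Site d)) (E : ℝ) (x y : Site d) :
    ∫⁻ V, pg Λ E x y V ^ (2 : ℝ) ∂(PL ν Λ) ≤ ENNReal.ofReal (1 + 2 * √(6 * ρ)) := by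
  have h2 : ∀ V, pg Λ E x y V ^ (2 : ℝ) ≤ 1 + ENNReal.ofReal (√|gr V Λ E x y|) := by
    intro V
    have := p8_sq_le (gr V Λ E x y)
    have e : pg Λ E x y V ^ (2 : ℝ) = p8 (gr V Λ E x y) ^ 2 := by
      rw [← ENNReal.rpow_natCast]
      norm_num [pg]
    rw [e]
    exact this
  calc _ ≤ ∫⁻ V, (1 + ENNReal.ofReal (√|gr V Λ E x y|)) ∂(PL ν Λ) := lintegral_mono h2
    _ = 1 + ∫⁻ V, ENNReal.ofReal (√|gr V Λ E x y|) ∂(PL ν Λ) := by
      rw [lintegral_add_left measurable_const, lintegral_const, measure_univ, mul_one]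
    _ ≤ 1 + ENNReal.ofReal (2 * √(6 * ρ)) := by
      gcongr
      exact PL_sqrt hν Λ E x y
    _ = ENNReal.ofReal (1 + 2 * √(6 * ρ)) := by
      rw [← ENNReal.ofReal_one, ← ENNReal.ofReal_add (by norm_num) (by positivity)]

theorem pg_prod (hν : BddDens ν ρ) (Λ : Finset (Site d)) (E F : ℝ) (x y z w : Site d) :
    ∫⁻ V, pg Λ F x z V * pg Λ E w y V ∂(PL ν Λ) ≤ ENNReal.ofReal (1 + 2 * √(6 * ρ)) := by
  have h3 := ENNReal.lintegral_mul_le_Lp_mul_Lq (PL ν Λ) Real.HolderConjugate.two_two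
    (f := pg Λ F x z) (g := pg Λ E w y) (measurable_pg Λ F x z).aemeasurable
    (measurable_pg Λ E w y).aemeasurable
  refine h3.trans ?_
  calc _ ≤ ENNReal.ofReal (1 + 2 * √(6 * ρ)) ^ (1 / 2 : ℝ) *
        ENNReal.ofReal (1 + 2 * √(6 * ρ)) ^ (1 / 2 : ℝ) := by
        gcongr
        · exact pg_sq hν Λ F x z
        · exact pg_sq hν Λ E w y
    _ = _ := by
        rw [← ENNReal.rpow_add_of_nonneg _ _ (by norm_num) (by norm_num)]
        norm_num

theorem pg_near (hν : BddDens ν ρ) (Λ : Finset (Site d)) (E F : ℝ) (x y : Site d) :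
    ∫⁻ V, pg Λ F x y V ∂(PL ν Λ) ≤ ∫⁻ V, pg Λ E x y V ∂(PL ν Λ) +
      p8 (E - F) * (Λ.card * ENNReal.ofReal (1 + 2 * √(6 * ρ))) := by
  have e0 := PL_det hν Λ Λ le_rfl E
  have e1 := PL_det hν Λ Λ le_rfl F
  have hae : ∀ᵐ V ∂(PL ν Λ), pg Λ F x y V ≤ pg Λ E x y V +
      p8 (E - F) * ∑ z ∈ Λ, pg Λ F x z V * pg Λ E z y V := by
    have a0 : ∀ᵐ V ∂(PL ν Λ), (RM V Λ E).det ≠ 0 := by
      rw [ae_iff]
      simpa using e0
    have a1 : ∀ᵐ V ∂(PL ν Λ), (RM V Λ F).det ≠ 0 := by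
      rw [ae_iff]
      simpa using e1
    filter_upwards [a0, a1] with V h0 h1
    unfold pg
    rw [gr_resolvent V Λ E F h0 h1 x y]
    refine (p8_add _ _).trans ?_
    gcongr
    refine (p8_sum _ _).trans ?_
    rw [Finset.mul_sum]
    refine Finset.sum_le_sum fun z _ => ?_
    rw [p8_mul, p8_mul]
  refine (lintegral_mono_ae hae).trans ?_
  rw [lintegral_add_left (measurable_pg _ _ _ _), lintegral_const_mul,
    lintegral_finsetSum]
  · gcongr
    refine (Finset.sum_le_sum fun z _ => pg_prod hν Λ E F x y z z).trans ?_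
    rw [Finset.sum_const, nsmul_eq_mul]
  · intro z _
    exact (measurable_pg _ _ _ _).mul (measurable_pg _ _ _ _)
  · exact Finset.measurable_sum _ fun z _ => (measurable_pg _ _ _ _).mul (measurable_pg _ _ _ _)

/-! ### TOL -/

theorem tol (d : ℕ) (C₀ σ E : ℝ) (hC : 0 < C₀) (hσ : σ ≠ 0)
    (h : ∀ A : ℕ, ∃ L : ℕ, A ≤ L ∧ PL (gl σ) (box (0 : Site d) L)
      {V | ¬ ((RM V (box 0 L) E).det ≠ 0 ∧
        ∀ u, sd 0 u = L → |gr V (box 0 L) E 0 u| ≤ (L : ℝ) ^ (-(A : ℝ)))} ≤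
        ENNReal.ofReal ((L : ℝ) ^ (-(A : ℝ)))) :
    E ∈ LocSet d C₀ σ := by
  have hν := bddDens_gl hσ
  set ρ : ℝ := 1 / |σ| with hρ
  set K : ℝ := C₀ * (1 + 1 / |σ|) with hK
  set c : ℝ := 1 + 2 * √(6 * ρ) with hc
  have hσ' : 0 < |σ| := abs_pos.2 hσ
  have hK0 : 0 < K := by positivity
  have hc0 : 0 < c := by positivity
  -- the exponent
  obtain ⟨A, hA1⟩ := exists_nat_ge
    (max (8 * (6 * d + 1) : ℝ) (2 * Real.exp 1 * K * 7 ^ (6 * d) * (1 + √c)))
  have hA2 := (le_max_left _ _).trans hA1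
  have hA3 := (le_max_right _ _).trans hA1
  have hA0 : (1 : ℝ) ≤ A := by
    have : (0 : ℝ) ≤ 48 * d := by positivity
    linarith
  obtain ⟨L, hAL, hL⟩ := h A
  have hAL' : (A : ℝ) ≤ L := by exact_mod_cast hAL
  have hL1 : (1 : ℝ) ≤ L := hA0.trans hAL'
  have hL0 : (0 : ℝ) < L := by linarith
  set Λ : Finset (Site d) := box 0 L with hΛ
  set ε₀ : ℝ := ((L : ℝ) ^ (-(A : ℝ))) ^ (1 / 8 : ℝ) + √(c * (L : ℝ) ^ (-(A : ℝ))) with hε₀
  have hε₀0 : 0 ≤ ε₀ := by positivity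
  have hinit : ∀ u : Site d, sd 0 u = L → ∫⁻ V, pg Λ E 0 u V ∂(PL (gl σ) Λ) ≤
      ENNReal.ofReal ε₀ := by
    intro u hu
    refine pg_tail hν Λ E 0 u _ (by positivity) (by positivity) hL ?_
    intro V hV
    rw [Set.mem_ofPred_eq, not_not] at hV
    exact hV.2 u hu
  -- the numerical condition at the energy `E`
  have hnum : K * (2 * L + 5) ^ (6 * d) * ε₀ ≤ Real.exp (-1) / 2 := by
    have e1 : ((L : ℝ) ^ (-(A : ℝ))) ^ (1 / 8 : ℝ) = (L : ℝ) ^ (-(A : ℝ) / 8) := by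
      rw [← Real.rpow_mul hL0.le]
      congr 1
      ring
    have e2 : √((L : ℝ) ^ (-(A : ℝ))) ≤ (L : ℝ) ^ (-(A : ℝ) / 8) := by
      rw [Real.sqrt_eq_rpow, ← Real.rpow_mul hL0.le]
      apply Real.rpow_le_rpow_of_exponent_le hL1
      linarith
    have e3 : ε₀ ≤ (1 + √c) * (L : ℝ) ^ (-(A : ℝ) / 8) := by
      rw [hε₀, e1, Real.sqrt_mul hc0.le, add_mul, one_mul]
      gcongr
    have e4 : (2 * (L : ℝ) + 5) ^ (6 * d) ≤ 7 ^ (6 * d) * (L : ℝ) ^ (6 * d) := by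
      rw [← mul_pow]
      gcongr
      linarith
    have e5 : (L : ℝ) ^ (6 * d) * (L : ℝ) ^ (-(A : ℝ) / 8) ≤ 1 / A := by
      rw [← Real.rpow_natCast, ← Real.rpow_add hL0]
      calc (L : ℝ) ^ (((6 * d : ℕ) : ℝ) + -(A : ℝ) / 8) ≤ (L : ℝ) ^ (-1 : ℝ) := by
            apply Real.rpow_le_rpow_of_exponent_le hL1
            push_cast
            linarith
        _ = 1 / L := by rw [Real.rpow_neg_one, one_div]
        _ ≤ 1 / A := one_div_le_one_div_of_le (by linarith) hAL'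
    calc K * (2 * L + 5) ^ (6 * d) * ε₀
        ≤ K * (7 ^ (6 * d) * (L : ℝ) ^ (6 * d)) * ((1 + √c) * (L : ℝ) ^ (-(A : ℝ) / 8)) := by
          gcongr
      _ = K * 7 ^ (6 * d) * (1 + √c) * ((L : ℝ) ^ (6 * d) * (L : ℝ) ^ (-(A : ℝ) / 8)) := by ring
      _ ≤ K * 7 ^ (6 * d) * (1 + √c) * (1 / A) := by gcongr
      _ ≤ Real.exp (-1) / 2 := by
          rw [mul_one_div, div_le_iff₀ (by linarith), Real.exp_neg]
          have h1 := Real.exp_pos 1
          rw [show (Real.exp 1)⁻¹ / 2 * (A : ℝ) = A / (2 * Real.exp 1) by field_simp,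
            le_div_iff₀ (by positivity)]
          linarith
  -- the interval
  set M : ℝ := K * (2 * L + 5) ^ (6 * d) * (Λ.card * c) with hM
  have hcard : (0 : ℝ) < Λ.card := by
    rw [hΛ, card_box]
    positivity
  have hM0 : 0 < M := by positivity
  set s : ℝ := Real.exp (-1) / (2 * M) with hs
  have hs0 : 0 < s := by positivity
  refine ⟨s ^ 8, by positivity, L, ?_⟩
  intro F hF
  refine ⟨ε₀ + s * (Λ.card * c), by positivity, ?_, ?_⟩
  · have : K * (2 * L + 5) ^ (6 * d) * (ε₀ + s * (Λ.card * c)) =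
        K * (2 * L + 5) ^ (6 * d) * ε₀ + M * s := by rw [hM]; ring
    rw [this]
    have h2 : M * s = Real.exp (-1) / 2 := by
      rw [hs]
      field_simp
    linarith
  · apply bulkInit_of_center
    intro u hu
    refine (pg_near hν Λ E F 0 u).trans ?_
    rw [ENNReal.ofReal_add hε₀0 (by positivity)]
    refine add_le_add (hinit u hu) ?_
    rw [ENNReal.ofReal_mul hs0.le, ENNReal.ofReal_mul (Nat.cast_nonneg _), ENNReal.ofReal_natCast]
    gcongr
    unfold p8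
    apply ENNReal.ofReal_le_ofReal
    have h3 : |E - F| ≤ s ^ 8 := by
      rw [abs_le]
      constructor <;> linarith [hF.1, hF.2]
    calc |E - F| ^ (1 / 8 : ℝ) ≤ (s ^ 8) ^ (1 / 8 : ℝ) :=
          Real.rpow_le_rpow (abs_nonneg _) h3 (by norm_num)
      _ = s := by
          rw [← Real.rpow_natCast, ← Real.rpow_mul hs0.le]
          norm_num

end Pool.Agent.LE.H42
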