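import Pool.Agent.LE.Stmts3
import Pool.Agent.Helper48_Loc.Geom

/-!
# MSD: the deterministic step of the multiscale induction
-/

set_option autoImplicit false
set_option linter.unusedSectionVars false

open MeasureTheory ProbabilityTheory Function

open scoped ENNReal BigOperators

noncomputable section

namespace Pool.Agent.LE.H42

open Pool.Agent.Anderson Pool.Agent.Loc Pool.Agent.Mob

variable {d : ℕ}

/-- the geometric resolvent identity, as an inequality -/
theorem geo_bound {V : Site d → ℝ} {Λ A : Finset (Site d)} {E α β : ℝ} (hA : A ⊆ Λ)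
    (h : (RM V Λ E).det ≠ 0) (hA' : (RM V A E).det ≠ 0) {x y : Site d} (hx : x ∈ A)
    (hy : y ∈ Λ \ A) (hα : 0 ≤ α) (hβ : 0 ≤ β)
    (hb : ∀ b ∈ A, ∀ b' ∈ Λ \ A, hop b b' ≠ 0 → |gr V A E x b| ≤ α ∧ |gr V Λ E b' y| ≤ β) :
    |gr V Λ E x y| ≤ α * (2 * d * A.card) * β := by
  rw [geo1 hA h hA' hx hy]
  refine (Finset.abs_sum_le_sum_abs _ _).trans ?_
  have h1 : ∀ b ∈ A, |∑ u' ∈ Λ \ A, gr V A E x b * hop b u' * gr V Λ E u' y| ≤
      α * (2 * d) * β := by
    intro b hbA
    refine (Finset.abs_sum_le_sum_abs _ _).trans ?_
    have h2 : ∀ u' ∈ Λ \ A, |gr V A E x b * hop b u' * gr V Λ E u' y| ≤ hop b u' * (α * β) := by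
      intro u' hu'
      by_cases hne : hop b u' = 0
      · rw [hne, mul_zero, zero_mul, zero_mul, abs_zero]
      · obtain ⟨h3, h4⟩ := hb b hbA u' hu' hne
        rw [abs_mul, abs_mul, abs_of_nonneg (hop_nonneg b u')]
        have := hop_nonneg b u'
        calc |gr V A E x b| * hop b u' * |gr V Λ E u' y| ≤ α * hop b u' * β := by gcongr
          _ = _ := by ring
    refine (Finset.sum_le_sum h2).trans ?_
    rw [← Finset.sum_mul]
    calc (∑ u' ∈ Λ \ A, hop b u') * (α * β) ≤ 2 * d * (α * β) := by
          gcongr
          exact sum_hop_le b _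
      _ = _ := by ring
  refine (Finset.sum_le_sum h1).trans (le_of_eq ?_)
  rw [Finset.sum_const, nsmul_eq_mul]
  ring

theorem msd : MsdStmt := by
  classical
  intro d V E m T q L s u hL hT hq hreg hbad hq2 hu
  set Λ : Finset (Site d) := box s (52 * L) with hΛ
  have hL' : (1 : ℝ) ≤ L := by exact_mod_cast hL
  have hdetΛ : (RM V Λ E).det ≠ 0 := (hreg (52 * L) le_rfl).1
  have hq0 : 0 ≤ q := le_trans (by positivity) hq2
  set bad : ℕ → Prop := fun i => ∃ b, sd s b = 3 * i * L + 1 ∧ ¬ SG V L m E b with hbaddef
  set g : ℕ → ℕ := fun i => ((Finset.Icc i 16).filter fun j => ¬ bad j).card with hg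
  -- one good shell
  have step : ∀ i : ℕ, i ≤ 16 → ¬ bad i → ∀ w : ℝ, 0 ≤ w →
      (∀ v ∈ box s (3 * (i + 1) * L), |gr V Λ E v u| ≤ w) →
      ∀ v ∈ box s (3 * i * L), |gr V Λ E v u| ≤ q * w := by
    intro i hi hgood w hw hW v hv
    have hiL : 3 * i * L ≤ 48 * L := Nat.mul_le_mul_right L (by omega)
    have hA : box s (3 * i * L) ⊆ Λ := box_mono s (by omega)
    have huA : u ∈ Λ \ box s (3 * i * L) := by
      rw [Finset.mem_sdiff, hΛ, mem_box, mem_box, hu]
      exact ⟨le_rfl, by omega⟩
    have hcard : ((box s (3 * i * L)).card : ℝ) ≤ (105 * L) ^ d := by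
      rw [card_box]
      push_cast
      have h1 : (3 * i * L : ℝ) ≤ 48 * L := by exact_mod_cast hiL
      gcongr
      linarith
    have hcard2 : ∀ b : Site d, ((box b L).card : ℝ) ≤ (3 * L) ^ d := by
      intro b
      rw [card_box]
      push_cast
      gcongr
      linarith
    have key := geo_bound (α := T) (β := Real.exp (-m * L) * (2 * d * (3 * L) ^ d) * w) hA hdetΛ
      (hreg (3 * i * L) (by omega)).1 hv huA hT (by positivity) (by
        intro b hb b' hb' hne
        refine ⟨(hreg (3 * i * L) (by omega)).2 v b, ?_⟩
        have h3 := sd_of_hop hne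
        rw [mem_box] at hb
        rw [Finset.mem_sdiff, hΛ, mem_box, mem_box] at hb'
        have h4 := sd_triangle s b b'
        have h5 : sd s b' = 3 * i * L + 1 := by omega
        have h6 : SG V L m E b' := by
          by_contra hc
          exact hgood ⟨b', h5, hc⟩
        have hA' : box b' L ⊆ Λ := by
          intro z hz
          rw [mem_box] at hz
          rw [hΛ, mem_box]
          have h7 := sd_triangle s b' z
          omega
        have huA' : u ∈ Λ \ box b' L := by
          rw [Finset.mem_sdiff, hΛ, mem_box, mem_box, hu]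
          refine ⟨le_rfl, fun hc => ?_⟩
          have h7 := sd_triangle s b' u
          omega
        have key2 := geo_bound (α := Real.exp (-m * L)) (β := w) hA' hdetΛ h6.1
          (mem_box.2 (by rw [sd_self]; omega)) huA' (by positivity) hw (by
            intro z hz z' hz' hne'
            have h8 := sd_of_hop hne'
            rw [mem_box] at hz
            rw [Finset.mem_sdiff, hΛ, mem_box, mem_box] at hz'
            have h9 := sd_triangle b' z z'
            have h10 := sd_triangle s b' z'
            refine ⟨h6.2 z (by omega), hW z' ?_⟩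
            rw [mem_box]
            have h11 : 3 * (i + 1) * L = 3 * i * L + 3 * L := by ring
            omega)
        refine key2.trans ?_
        have := hcard2 b'
        gcongr)
    refine key.trans ?_
    calc T * (2 * d * (box s (3 * i * L)).card) * (Real.exp (-m * L) * (2 * d * (3 * L) ^ d) * w)
        ≤ T * (2 * d * (105 * L) ^ d) * (Real.exp (-m * L) * (2 * d * (3 * L) ^ d) * w) := by
          gcongr
      _ = T * (2 * d * (105 * L) ^ d) * (2 * d * (3 * L) ^ d * Real.exp (-m * L)) * w := by ring
      _ ≤ q * w := by gcongr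
  -- downward induction
  have main : ∀ j : ℕ, j ≤ 16 → ∀ v ∈ box s (3 * (17 - j) * L),
      |gr V Λ E v u| ≤ q ^ g (17 - j) * T := by
    intro j
    induction j with
    | zero =>
      intro _ v _
      have h1 : g (17 - 0) = 0 := by
        rw [hg]
        simp
      rw [h1, pow_zero, one_mul]
      exact (hreg (52 * L) le_rfl).2 v u
    | succ j ih =>
      intro hj v hv
      have ih' := ih (by omega)
      have e1 : 17 - j = (17 - (j + 1)) + 1 := by omega
      set i := 17 - (j + 1) with hi
      rw [e1] at ih'
      have hi16 : i ≤ 16 := by omega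
      have hIcc : Finset.Icc i 16 = insert i (Finset.Icc (i + 1) 16) := by
        ext a
        simp only [Finset.mem_Icc, Finset.mem_insert]
        omega
      by_cases hb : bad i
      · have e2 : g i = g (i + 1) := by
          simp only [hg]
          rw [hIcc, Finset.filter_insert, if_neg (not_not.2 hb)]
        rw [e2]
        apply ih'
        rw [mem_box] at hv ⊢
        have : 3 * (i + 1) * L = 3 * i * L + 3 * L := by ring
        omega
      · have e2 : g i = g (i + 1) + 1 := by
          simp only [hg]
          rw [hIcc, Finset.filter_insert, if_pos hb, Finset.card_insert_of_notMem]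
          simp
        rw [e2]
        have := step i hi16 hb _ (by positivity) ih' v hv
        refine this.trans (le_of_eq ?_)
        ring
  -- at most three bad shells
  have hcount : 13 ≤ g 1 := by
    have hpair : ∀ i j : ℕ, 1 ≤ i → i < j → j ≤ 16 → bad i → bad j → j ≤ i + 2 := by
      intro i j hi hij hj16 hbi hbj
      obtain ⟨b, hb1, hb2⟩ := hbi
      obtain ⟨b', hb1', hb2'⟩ := hbj
      have h1 : 3 * i * L ≤ 48 * L := Nat.mul_le_mul_right L (by omega)
      have h2 : 3 * j * L ≤ 48 * L := Nat.mul_le_mul_right L (by omega)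
      have h3 := hbad b (mem_box.2 (by omega)) b' (mem_box.2 (by omega)) hb2 hb2'
      have h4 := sd_triangle s b b'
      by_contra hc
      push Not at hc
      have h5 : 3 * (i + 3) * L ≤ 3 * j * L := Nat.mul_le_mul_right L (by omega)
      have h6 : 3 * (i + 3) * L = 3 * i * L + 9 * L := by ring
      omega
    have hsplit : ((Finset.Icc 1 16).filter fun j => bad j).card + g 1 = 16 := by
      have := Finset.card_filter_add_card_filter_not (s := Finset.Icc 1 16) (fun j => bad j)
      rw [hg]
      simpa using this
    have hthree : ((Finset.Icc 1 16).filter fun j => bad j).card ≤ 3 := by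
      by_cases hne : ((Finset.Icc 1 16).filter fun j => bad j).Nonempty
      · set i := ((Finset.Icc 1 16).filter fun j => bad j).min' hne with hi
        have hmem := Finset.min'_mem _ hne
        rw [← hi, Finset.mem_filter, Finset.mem_Icc] at hmem
        have hsub : ((Finset.Icc 1 16).filter fun j => bad j) ⊆ Finset.Icc i (i + 2) := by
          intro j hj
          have h1 := Finset.min'_le _ j hj
          rw [← hi] at h1
          rw [Finset.mem_filter, Finset.mem_Icc] at hj
          rw [Finset.mem_Icc]
          refine ⟨h1, ?_⟩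
          rcases h1.eq_or_lt with h2 | h2
          · omega
          · exact hpair i j hmem.1.1 h2 hj.1.2 hmem.2 hj.2
        refine (Finset.card_le_card hsub).trans ?_
        rw [Nat.card_Icc]
        omega
      · rw [Finset.not_nonempty_iff_eq_empty] at hne
        rw [hne]
        simp
    omega
  have hfin := main 16 le_rfl s (mem_box.2 (by rw [sd_self]; omega))
  refine hfin.trans ?_
  have h17 : 17 - 16 = 1 := rfl
  rw [h17]
  exact mul_le_mul_of_nonneg_right (pow_le_pow_of_le_one hq0 hq hcount) hT

end Pool.Agent.LE.H42
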