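import Pool.Agent.Helper42_LE.Joint

/-!
# The critical coupling constant
-/

set_option autoImplicit false
set_option linter.unusedSectionVars false

open MeasureTheory ProbabilityTheory Function Filter

open scoped ENNReal NNReal BigOperators Topology

noncomputable section

namespace Pool.Agent.LE.H42J

open Pool.Agent.Anderson Pool.Agent.Loc Pool.Agent.Mob Pool.Agent.Helper54.Bal
  Pool.Agent.LE.H96

variable {d : ℕ}

theorem gl_eq (σ : ℝ) : gl σ = gaussianReal 0 (.mk (σ ^ 2) (sq_nonneg _)) := by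
  unfold gl γ1
  rw [gaussianReal_map_const_mul, mul_zero, mul_one]

theorem gl_neg (σ : ℝ) : gl (-σ) = gl σ := by
  rw [gl_eq, gl_eq]
  congr 1
  apply NNReal.eq
  change (-σ) ^ 2 = σ ^ 2
  ring

theorem PP_neg (σ : ℝ) : PP d (gl (-σ)) = PP d (gl σ) := by
  unfold PP
  simp only [gl_neg]

theorem lya_unique {σ E g g' : ℝ} (h : LyaAt d σ E g) (h' : LyaAt d σ E g') : g = g' := by
  have key : ∀ a b : ℝ, LyaAt d σ E a → LyaAt d σ E b → ¬ a < b := by
    intro a b ha hb hab
    set ε := (b - a) / 2 with hε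
    have hε0 : 0 < ε := by rw [hε]; linarith
    have h1 := (ha.2 ε hε0).1
    have h2 := (hb.2 ε hε0).2
    have e : b - ε = a + ε := by rw [hε]; ring
    rw [e] at h2
    have h5 := h1.add h2
    rw [add_zero] at h5
    have h6 : (1 : ℝ≥0∞) ≤ 0 := by
      refine ge_of_tendsto' h5 fun M => ?_
      rw [← measure_univ (μ := PP d (gl σ))]
      refine (measure_mono ?_).trans (measure_union_le _ _)
      intro V _
      by_cases hV : SG V M (a + ε) E 0
      · exact Or.inl hV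
      · exact Or.inr hV
    exact absurd h6 (by norm_num)
  exact le_antisymm (not_lt.1 (key _ _ h' h)) (not_lt.1 (key _ _ h h'))

theorem lya_neg {σ E g : ℝ} (h : LyaAt d σ E g) : LyaAt d (-σ) E g := by
  unfold LyaAt at h ⊢
  rw [PP_neg]
  exact h

theorem lya_abs {γ : ℝ → ℝ → ℝ} (hγ : ∀ σ, σ ≠ 0 → ∀ E, LyaAt d σ E (γ σ E)) {σ : ℝ}
    (hσ : σ ≠ 0) (E : ℝ) : γ |σ| E = γ σ E := by
  rcases abs_choice σ with h | h
  · rw [h]
  · rw [h]
    exact lya_unique (hγ (-σ) (neg_ne_zero.2 hσ) E) (lya_neg (hγ σ hσ E))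

/-- the critical coupling constant: localization at all energies above it, and, if it is positive,
not at it -/
theorem critical {γ : ℝ → ℝ → ℝ} (hγ : ∀ σ, σ ≠ 0 → ∀ E, LyaAt d σ E (γ σ E))
    (hlsc : ∀ q : ℝ × ℝ, q.1 ≠ 0 → LowerSemicontinuousAt (fun q : ℝ × ℝ => γ q.1 q.2) q)
    {σ₁ K₀ : ℝ} (h1 : ∀ σ, σ₁ ≤ |σ| → ∀ E, 0 < γ σ E)
    (h2 : ∀ σ, σ ≠ 0 → |σ| ≤ σ₁ → ∀ E, K₀ < |E| → 0 < γ σ E) :
    ∃ σc : ℝ, 0 ≤ σc ∧ (∀ σ, σc < |σ| → ∀ E, 0 < γ σ E) ∧ (0 < σc → ∃ E, γ σc E = 0) := by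
  set S : Set ℝ := {s | 0 < s ∧ ∃ E, γ s E = 0} with hS
  have hpos : ∀ σ : ℝ, σ ≠ 0 → |σ| ∉ S → ∀ E, 0 < γ σ E := by
    intro σ hσ hs E
    rcases (hγ σ hσ E).1.lt_or_eq with h | h
    · exact h
    · exact absurd ⟨abs_pos.2 hσ, E, by rw [lya_abs hγ hσ]; exact h.symm⟩ hs
  by_cases hne : S.Nonempty
  · have hbdd : BddAbove S := by
      refine ⟨σ₁, ?_⟩
      rintro s ⟨hs0, E, hE⟩
      by_contra hcon
      push Not at hcon
      have := h1 s (by rw [abs_of_pos hs0]; exact hcon.le) E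
      rw [hE] at this
      exact lt_irrefl _ this
    obtain ⟨s₀, hs₀⟩ := hne
    have hc0 : 0 < sSup S := hs₀.1.trans_le (le_csSup hbdd hs₀)
    refine ⟨sSup S, hc0.le, ?_, ?_⟩
    · intro σ hσ E
      refine hpos σ ?_ ?_ E
      · rintro rfl
        rw [abs_zero] at hσ
        linarith
      · intro h
        exact absurd (le_csSup hbdd h) (not_le.2 hσ)
    · intro _
      by_contra hcon
      push Not at hcon
      have hgt : ∀ E, 0 < γ (sSup S) E := fun E =>
        lt_of_le_of_ne (hγ _ hc0.ne' E).1 (hcon E).symm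
      -- a uniform neighbourhood
      have hU : ∀ᶠ s in 𝓝 (sSup S), ∀ E ∈ Set.Icc (-K₀) K₀, 0 < γ s E := by
        have hK : IsCompact (Set.Icc (-K₀) K₀) := isCompact_Icc
        refine hK.eventually_forall_of_forall_eventually fun E _ => ?_
        have h3 := hlsc (sSup S, E) hc0.ne' 0 (hgt E)
        exact h3
      have hle : sSup S ≤ σ₁ := csSup_le ⟨s₀, hs₀⟩ (by
        rintro s ⟨hs0, E, hE⟩
        by_contra hcon
        push Not at hcon
        have := h1 s (by rw [abs_of_pos hs0]; exact hcon.le) E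
        rw [hE] at this
        exact lt_irrefl _ this)
      obtain ⟨ε, hε, hball⟩ := Metric.eventually_nhds_iff.1 hU
      obtain ⟨s, hsS, hs⟩ := exists_lt_of_lt_csSup ⟨s₀, hs₀⟩ (show sSup S - ε < sSup S by linarith)
      have hs1 : s ≤ sSup S := le_csSup hbdd hsS
      obtain ⟨hs0, E, hE⟩ := hsS
      by_cases hEK : K₀ < |E|
      · have := h2 s hs0.ne' (by rw [abs_of_pos hs0]; linarith) E hEK
        rw [hE] at this
        exact lt_irrefl _ this
      · push Not at hEK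
        have hd : dist s (sSup S) < ε := by
          rw [Real.dist_eq, abs_sub_lt_iff]
          constructor <;> linarith
        have := hball hd E (abs_le.1 hEK)
        rw [hE] at this
        exact lt_irrefl _ this
  · rw [Set.not_nonempty_iff_eq_empty] at hne
    refine ⟨0, le_rfl, ?_, fun h => absurd h (lt_irrefl _)⟩
    intro σ hσ E
    exact hpos σ (abs_pos.1 hσ) (by rw [hne]; exact Set.notMem_empty _) E

end Pool.Agent.LE.H42J
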