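import Pool.Agent.Helper96_LE.Lsc
import Pool.Agent.Helper42_Mob.Fin

/-!
# The Lyapunov exponent is lower semicontinuous jointly in the coupling constant and the energy
-/

set_option autoImplicit false
set_option linter.unusedSectionVars false

open MeasureTheory ProbabilityTheory Function Filter

open scoped ENNReal BigOperators Topology

noncomputable section

namespace Pool.Agent.LE.H42J

open Pool.Agent.Anderson Pool.Agent.Loc Pool.Agent.Mob Pool.Agent.Helper54.Bal
  Pool.Agent.LE.H96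

variable {d : ℕ}

/-- the law of a standard Gaussian family -/
def P1 (d : ℕ) : Measure (Site d → ℝ) := Measure.infinitePi fun _ : Site d => gaussianReal 0 1

instance : IsProbabilityMeasure (P1 d) := by unfold P1; infer_instance

/-- coupling of the laws for all coupling constants -/
theorem PP_eq (σ : ℝ) {A : Set (Site d → ℝ)} (hA : MeasurableSet A) :
    PP d (gl σ) A = P1 d {ξ | (fun y => σ * ξ y) ∈ A} := by
  have hm : ∀ y : Site d, Measurable fun ξ : Site d → ℝ => ξ y := fun y => measurable_pi_apply y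
  have hlaw : ∀ y : Site d, (P1 d).map (fun ξ => ξ y) = gaussianReal 0 1 := fun y =>
    (measurePreserving_eval_infinitePi (fun _ : Site d => gaussianReal 0 1) y).map_eq
  have hind : iIndepFun (fun (y : Site d) (ξ : Site d → ℝ) => ξ y) (P1 d) :=
    iIndepFun_infinitePi (P := fun _ : Site d => gaussianReal 0 1) (X := fun _ t => t)
      (fun _ => measurable_id)
  have h := Pool.Agent.Mob.H42.map_eq_PP hm hlaw hind σ
  rw [← h, Measure.map_apply (measurable_pi_iff.2 fun y => (hm y).const_mul σ) hA]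
  rfl

theorem continuous_RM_J (ξ : Site d → ℝ) (Λ : Finset (Site d)) :
    Continuous fun p : ℝ × ℝ => RM (fun y => p.1 * ξ y) Λ p.2 := by
  apply continuous_matrix
  intro x y
  simp only [RM, HM, Matrix.sub_apply, Matrix.smul_apply, Matrix.of_apply, smul_eq_mul]
  split_ifs <;> fun_prop

theorem continuous_det_J (ξ : Site d → ℝ) (Λ : Finset (Site d)) :
    Continuous fun p : ℝ × ℝ => (RM (fun y => p.1 * ξ y) Λ p.2).det :=
  (continuous_RM_J ξ Λ).matrix_det

theorem continuousAt_gr_J (ξ : Site d → ℝ) (Λ : Finset (Site d)) {p : ℝ × ℝ}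
    (hp : (RM (fun y => p.1 * ξ y) Λ p.2).det ≠ 0) (x y : Site d) :
    ContinuousAt (fun p : ℝ × ℝ => gr (fun y => p.1 * ξ y) Λ p.2 x y) p := by
  by_cases h : x ∈ Λ ∧ y ∈ Λ
  · simp_rw [gr_eq_adj h.1 h.2]
    apply ContinuousAt.mul
    · exact (continuous_det_J ξ Λ).continuousAt.inv₀ hp
    · have h1 : Continuous fun p : ℝ × ℝ => (RM (fun y => p.1 * ξ y) Λ p.2).adjugate :=
        (continuous_RM_J ξ Λ).matrix_adjugate
      exact (h1.matrix_elem _ _).continuousAt
  · have : (fun p : ℝ × ℝ => gr (fun y => p.1 * ξ y) Λ p.2 x y) = fun _ => 0 := by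
      funext p
      unfold gr
      rw [dif_neg h]
    rw [this]
    exact continuousAt_const

theorem open_allGood_J {ξ : Site d → ℝ} {L : ℕ} {κ κ' : ℝ} {p : ℝ × ℝ} (hL : 1 ≤ L)
    (hκ : κ' < κ) (h : AllGoodC (fun y => p.1 * ξ y) 0 L κ p.2) :
    ∀ᶠ q in 𝓝 p, AllGoodC (fun y => q.1 * ξ y) 0 L κ' q.2 := by
  unfold AllGoodC
  refine (Finset.eventually_all _).2 fun s hs => ?_
  obtain ⟨h1, h2⟩ := h s hs
  have hd : ∀ᶠ q in 𝓝 p, (RM (fun y => q.1 * ξ y) (box s L) q.2).det ≠ 0 :=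
    (continuous_det_J ξ (box s L)).continuousAt.eventually_ne h1
  have hu : ∀ᶠ q in 𝓝 p, ∀ u ∈ box s L, sd s u = L →
      |gr (fun y => q.1 * ξ y) (box s L) q.2 s u| ≤ Real.exp (-κ' * L) := by
    refine (Finset.eventually_all _).2 fun u _ => ?_
    by_cases hsu : sd s u = L
    · have hlt : |gr (fun y => p.1 * ξ y) (box s L) p.2 s u| < Real.exp (-κ' * L) := by
        refine (h2 u hsu).trans_lt (Real.exp_lt_exp.2 ?_)
        have : (1 : ℝ) ≤ L := by exact_mod_cast hL
        nlinarith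
      have hc := (continuousAt_gr_J ξ (box s L) h1 s u).abs
      filter_upwards [hc.eventually_lt continuousAt_const hlt] with F hF _
      exact hF.le
    · exact Filter.Eventually.of_forall fun F hF => absurd hF hsu
  filter_upwards [hd, hu] with F hF1 hF2
  exact ⟨hF1, fun u hsu => hF2 u (mem_box.2 hsu.le) hsu⟩

theorem meas_scale (σ : ℝ) {A : Set (Site d → ℝ)} (hA : MeasurableSet A) :
    MeasurableSet {ξ : Site d → ℝ | (fun y => σ * ξ y) ∈ A} := by
  have h : Measurable fun ξ : Site d → ℝ => fun y => σ * ξ y :=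
    measurable_pi_iff.2 fun y => by
      have h1 : Measurable fun ξ : Site d → ℝ => ξ y := measurable_pi_apply y
      exact h1.const_mul σ
  exact h hA

/-- the finite volume condition is stable under small changes of the energy and of the coupling
constant -/
theorem stable_J {κ κ' p p' : ℝ} {q₀ : ℝ × ℝ} {L : ℕ} (hL : 1 ≤ L) (hκ : κ' < κ) (hp : 0 ≤ p)
    (hpp : p < p')
    (h : PP d (gl q₀.1) {V | ¬ AllGoodC V 0 L κ q₀.2} ≤ ENNReal.ofReal p) :
    ∀ᶠ q in 𝓝 q₀, PP d (gl q.1) {V | ¬ AllGoodC V 0 L κ' q.2} ≤ ENNReal.ofReal p' := by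
  have hM : ∀ (κ E : ℝ), MeasurableSet {V : Site d → ℝ | ¬ AllGoodC V 0 L κ E} := fun κ E =>
    (H3A.measurableSet_allGoodC L κ E 0).compl
  by_contra hcon
  have hfr : ∃ᶠ q in 𝓝 q₀, ¬ PP d (gl q.1) {V | ¬ AllGoodC V 0 L κ' q.2} ≤
    ENNReal.ofReal p' := Filter.not_eventually.1 hcon
  obtain ⟨F, hF, hFp⟩ := exists_seq_forall_of_frequently hfr
  set A : ℕ → Set (Site d → ℝ) := fun n =>
    {ξ | ¬ AllGoodC (fun y => (F n).1 * ξ y) 0 L κ' (F n).2} with hA
  have hAm : ∀ n, MeasurableSet (A n) := fun n => meas_scale (F n).1 (hM κ' (F n).2)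
  set B : ℕ → Set (Site d → ℝ) := fun n => ⋃ k, A (n + k) with hB
  have hBm : ∀ n, MeasurableSet (B n) := fun n => MeasurableSet.iUnion fun k => hAm _
  have hanti : Antitone B := by
    intro n m hnm V hV
    simp only [hB, Set.mem_iUnion] at hV ⊢
    obtain ⟨k, hk⟩ := hV
    refine ⟨m - n + k, ?_⟩
    have e : n + (m - n + k) = m + k := by omega
    rw [e]
    exact hk
  have hlim := tendsto_measure_iInter_atTop (μ := P1 d)
    (fun n => (hBm n).nullMeasurableSet) hanti ⟨0, measure_ne_top _ _⟩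
  have hsub : (⋂ n, B n) ⊆ {ξ | ¬ AllGoodC (fun y => q₀.1 * ξ y) 0 L κ q₀.2} := by
    intro V hV hgood
    have h1 := hF.eventually (open_allGood_J hL hκ hgood)
    obtain ⟨n, hn⟩ := eventually_atTop.1 h1
    have h2 := Set.mem_iInter.1 hV n
    simp only [hB, Set.mem_iUnion] at h2
    obtain ⟨k, hk⟩ := h2
    exact hk (hn (n + k) (by omega))
  have h3 : ENNReal.ofReal p' ≤ P1 d (⋂ n, B n) := by
    refine ge_of_tendsto' hlim fun n => ?_
    have h4 : ENNReal.ofReal p' < P1 d (A n) := by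
      have := not_le.1 (hFp n)
      rwa [PP_eq _ (hM κ' (F n).2)] at this
    refine h4.le.trans (measure_mono ?_)
    intro V hV
    simp only [hB, Set.mem_iUnion]
    exact ⟨0, hV⟩
  rw [PP_eq _ (hM κ q₀.2)] at h
  have h5 := h3.trans ((measure_mono hsub).trans h)
  rw [ENNReal.ofReal_le_ofReal_iff hp] at h5
  linarith

theorem bdd_mono {ν : Measure ℝ} {ρ ρ' : ℝ} (h : BddDens ν ρ) (hρ : ρ ≤ ρ') : BddDens ν ρ' := by
  obtain ⟨h1, h2⟩ := h
  refine ⟨h1.trans_le hρ, fun a b => (h2 a b).trans ?_⟩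
  by_cases hab : 0 ≤ b - a
  · exact ENNReal.ofReal_le_ofReal (mul_le_mul_of_nonneg_right hρ hab)
  · have : ρ * (b - a) ≤ 0 := mul_nonpos_of_nonneg_of_nonpos h1.le (by linarith)
    rw [ENNReal.ofReal_of_nonpos this]
    exact zero_le

/-- joint lower semicontinuity -/
theorem lscJ (smp : SmpStmt) (smn : SmnStmt) (alg : AlgStmt) (d : ℕ) (γ : ℝ → ℝ → ℝ)
    (hd : 1 ≤ d) (hγ : ∀ σ, σ ≠ 0 → ∀ E, LyaAt d σ E (γ σ E)) (q₀ : ℝ × ℝ) (hq : q₀.1 ≠ 0) :
    LowerSemicontinuousAt (fun q : ℝ × ℝ => γ q.1 q.2) q₀ := by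
  intro y hy
  have hnz : ∀ᶠ q in 𝓝 q₀, q.1 ≠ 0 := continuous_fst.continuousAt.eventually_ne hq
  by_cases hy0 : y < 0
  · filter_upwards [hnz] with q hq'
    exact hy0.trans_le (hγ q.1 hq' q.2).1
  push Not at hy0
  simp only at hy
  set g : ℝ := γ q₀.1 q₀.2 with hg
  set η := (g - y) / 4 with hη
  have hη0 : 0 < η := by rw [hη]; linarith
  have habs : 0 < |q₀.1| := abs_pos.2 hq
  obtain ⟨p₀, hp₀, L₀, hsmn⟩ := smn d (2 / |q₀.1|) (g - 2 * η) η 1 hd (by positivity) hη0
    (by rw [hη]; linarith)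
  have h1 := alg d q₀.1 q₀.2 g η hd hq (hγ q₀.1 hq q₀.2) hη0
  obtain ⟨L₂, hL₂⟩ := eventually_atTop.1 (ENNReal.tendsto_nhds_zero.1 h1
    (ENNReal.ofReal (p₀ / 2)) (by
      rw [gt_iff_lt, ENNReal.ofReal_pos]
      positivity))
  set L := max 1 (max L₀ L₂) with hL
  obtain ⟨ℓ, μ, p, hℓ0, hμ0, hp0, hstep, L₁, hlast⟩ := hsmn L
    ((le_max_left _ _).trans (le_max_right _ _))
  have hst := stable_J (d := d) (q₀ := q₀) (κ := g - η) (κ' := g - 2 * η)
    (p := p₀ / 2) (p' := p₀) (L := L) (le_max_left _ _) (by linarith) (by positivity)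
    (by linarith) (hL₂ L ((le_max_right _ _).trans (le_max_right _ _)))
  have hbig : ∀ᶠ q in 𝓝 q₀, |q₀.1| / 2 < |q.1| :=
    (continuous_fst.abs.continuousAt (x := q₀)).eventually_const_lt (by
      show |q₀.1| / 2 < |q₀.1|
      linarith)
  filter_upwards [hst, hnz, hbig] with q hE hq' hb
  have hν : BddDens (gl q.1) (2 / |q₀.1|) := by
    refine bdd_mono (bddDens_gl hq') ?_
    have h0 : 0 < |q.1| := abs_pos.2 hq'
    rw [div_le_div_iff₀ h0 habs]
    linarith
  by_contra hcon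
  push Not at hcon
  have hk : ∀ k, PP d (gl q.1) {V | ¬ AllGoodC V 0 (ℓ k) (μ k) q.2} ≤
      ENNReal.ofReal (p k) := by
    intro k
    induction k with
    | zero =>
      rw [hℓ0, hμ0, hp0]
      exact hE
    | succ k ih =>
      exact H3R.stepN_apply smp (gl q.1) hν q.2 (hstep k).1 (hstep k).2.1 (hstep k).2.2 ih
  have hM : ∀ M : ℕ, L₁ ≤ M → PP d (gl q.1) {V | ¬ SG V M (y + η) q.2 0} ≤
      ENNReal.ofReal ((M : ℝ) ^ (-(1 : ℝ))) := by
    intro M hM
    obtain ⟨k, hs⟩ := hlast M hM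
    have h2 := H3R.stepN_apply smp (gl q.1) hν q.2 (hstep k).1 (hstep k).2.1 hs (hk k)
    have e : g - 2 * η - η = y + η := by rw [hη]; ring
    rw [e] at h2
    refine (measure_mono ?_).trans h2
    intro V hV hg
    exact hV (hg 0 (by rw [mem_box, sd_self]; exact Nat.zero_le _))
  have hη2 : 0 < y + η - γ q.1 q.2 := by linarith
  have h3 := ((hγ q.1 hq' q.2).2 _ hη2).1
  have e2 : γ q.1 q.2 + (y + η - γ q.1 q.2) = y + η := by ring
  rw [e2] at h3
  have h4 : Tendsto (fun M : ℕ => PP d (gl q.1) {V | ¬ SG V M (y + η) q.2 0}) atTop (𝓝 0) := by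
    have h5 : Tendsto (fun M : ℕ => ENNReal.ofReal ((M : ℝ) ^ (-(1 : ℝ)))) atTop (𝓝 0) := by
      have h6 : Tendsto (fun M : ℕ => (M : ℝ) ^ (-(1 : ℝ))) atTop (𝓝 0) :=
        (tendsto_rpow_neg_atTop one_pos).comp tendsto_natCast_atTop_atTop
      have h7 := ENNReal.tendsto_ofReal h6
      rwa [ENNReal.ofReal_zero] at h7
    refine tendsto_of_tendsto_of_tendsto_of_le_of_le' tendsto_const_nhds h5
      (Filter.Eventually.of_forall fun M => zero_le) ?_
    filter_upwards [eventually_ge_atTop L₁] with M hM'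
    exact hM M hM'
  have h5 := h3.add h4
  rw [add_zero] at h5
  have h6 : (1 : ℝ≥0∞) ≤ 0 := by
    refine ge_of_tendsto' h5 fun M => ?_
    rw [← measure_univ (μ := PP d (gl q.1))]
    refine (measure_mono ?_).trans (measure_union_le _ _)
    intro V _
    by_cases hV : SG V M (y + η) q.2 0
    · exact Or.inl hV
    · exact Or.inr hV
  exact absurd h6 (by norm_num)

end Pool.Agent.LE.H42J
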