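import Pool.Agent.Helper96_LE.ExactDecay
import Pool.Agent.Helper42_LE.Critical

/-!
# The Lyapunov exponent in the plane of the coupling constant and the energy: assembly
-/

set_option autoImplicit false
set_option linter.unusedSectionVars false

open MeasureTheory ProbabilityTheory Function Filter

open scoped ENNReal NNReal BigOperators ComplexInnerProductSpace Topology

noncomputable section

namespace Pool.Agent.LE.H42J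

open Pool.Agent.Anderson Pool.Agent.Loc Pool.Agent.Mob Pool.Agent.Helper54.Bal
  Pool.Agent.Mob.H42 Pool.Agent.LE.H96

universe u

/-- the statement of the theorem -/
def MainJ.{v} : Prop :=
  ∀ d : ℕ, 1 ≤ d → ∃ γ : ℝ → ℝ → ℝ,
    (∀ σ : ℝ, σ ≠ 0 → ∀ E : ℝ, 0 ≤ γ σ E ∧ ∀ ε : ℝ, 0 < ε →
      Tendsto (H93.pr d σ E (γ σ E + ε)) atTop (𝓝 0) ∧
      Tendsto (H93.pr d σ E (γ σ E - ε)) atTop (𝓝 1)) ∧
    (∀ σ : ℝ, σ ≠ 0 → ∀ E : ℝ, LowerSemicontinuousAt (fun q : ℝ × ℝ => γ q.1 q.2) (σ, E)) ∧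
    (3 ≤ d → ∃ σc : ℝ, 0 ≤ σc ∧ (∀ σ : ℝ, σc < |σ| → ∀ E : ℝ, 0 < γ σ E) ∧
      (0 < σc → ∃ E : ℝ, γ σc E = 0)) ∧
    ∀ σ : ℝ, σ ≠ 0 →
      (3 ≤ d → ∃ K : ℝ, ∀ E : ℝ, K < |E| → 0 < γ σ E) ∧
      (∀ E : ℝ, 0 < γ σ E → ∃ κ c : ℝ, 0 < κ ∧ 0 < c ∧ ∀ᶠ L : ℕ in atTop,
        1 - H93.pr d σ E κ L ≤ ENNReal.ofReal (Real.exp (-c * L))) ∧
      ∀ (Ω : Type v) [MeasurableSpace Ω] (P : Measure Ω) [IsProbabilityMeasure P]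
        (ξ : Site d → Ω → ℝ), (∀ y, Measurable (ξ y)) →
        (∀ y, P.map (ξ y) = gaussianReal 0 1) → iIndepFun ξ P →
        (∀ K : Set ℝ, IsCompact K → K ⊆ {E | 0 < γ σ E} → ∃ m : ℝ, 0 < m ∧ ∀ᵐ ω ∂P, ∀ E ∈ K,
          ∀ ψ : Site d → ℂ,
            (∃ (B : ℝ) (k : ℕ), ∀ x, ‖ψ x‖ ≤ B * (1 + (sd 0 x : ℝ)) ^ k) →
            (∀ x, lap ψ x + ((σ * ξ x ω : ℝ) : ℂ) * ψ x = (E : ℂ) * ψ x) →
            ∃ B : ℝ, ∀ x, ‖ψ x‖ ≤ B * Real.exp (-m * sd 0 x)) ∧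
        (∀ᵐ ω ∂P, ∀ c r : ℝ, Set.Icc (c - r) (c + r) ⊆ {E | 0 < γ σ E} → ∀ u w : L2 d,
          (∀ x, w x = lap u x + ((σ * ξ x ω : ℝ) : ℂ) * u x) →
          (∀ (E : ℝ) (ψ : L2 d), E ∈ Set.Icc (c - r) (c + r) →
            IsEigen (fun x => σ * ξ x ω) E ψ → ⟪ψ, u⟫ = 0) →
          r * ‖u‖ ≤ ‖w - (c : ℂ) • u‖) ∧
        (∀ a b β k : ℝ, Set.Icc a b ⊆ {E | 0 < γ σ E} → 0 < β → ∃ T₀ : ℝ, ∀ T : ℝ, T₀ ≤ T →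
          ∫⁻ ω, spread (fun x => σ * ξ x ω) T (T ^ β) (Set.Ioo a b) ∂P ≤
            ENNReal.ofReal (T ^ (-k))) ∧
        (∀ a b δ : ℝ, ¬ Set.Ioo a b ⊆ {E | 0 < γ σ E} → 0 < δ → δ ≤ 1 → ∃ T₀ : ℝ, ∀ T : ℝ,
          T₀ ≤ T → ENNReal.ofReal (T ^ (-6 : ℝ)) ≤
            ∫⁻ ω, spread (fun x => σ * ξ x ω) T (T ^ (1 / ((d : ℝ) + δ))) (Set.Ioo a b) ∂P)

theorem mainJ (hG : H93.MainG.{u}) (smp : SmpStmt) (smn : SmnStmt) (alg : AlgStmt) :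
    MainJ.{u} := by
  intro d hd
  obtain ⟨σ₁, C, hσ₁, hC, h⟩ := hG d hd
  have hex : ∀ σ : ℝ, ∃ γ : ℝ → ℝ, σ ≠ 0 → _ := fun σ => by
    by_cases hσ : σ = 0
    · exact ⟨fun _ => 0, fun h0 => absurd hσ h0⟩
    · obtain ⟨γ, hγ⟩ := h σ hσ
      exact ⟨γ, fun _ => hγ⟩
  choose γ hγ using hex
  have hL : ∀ σ : ℝ, σ ≠ 0 → ∀ E, LyaAt d σ E (γ σ E) := fun σ hσ E =>
    lyaAt_of_pr ((hγ σ hσ).1 E).1 ((hγ σ hσ).1 E).2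
  have hlsc : ∀ q : ℝ × ℝ, q.1 ≠ 0 →
      LowerSemicontinuousAt (fun q : ℝ × ℝ => γ q.1 q.2) q := fun q hq =>
    lscJ smp smn alg d γ hd hL q hq
  refine ⟨γ, fun σ hσ => (hγ σ hσ).1, fun σ hσ E => hlsc (σ, E) hσ, ?_, ?_⟩
  · intro hd3
    refine critical hL hlsc (σ₁ := σ₁)
      (K₀ := 2 * d + watson d * σ₁ ^ 2 + C * |σ₁| ^ (2 + 1 / (24 * d : ℝ))) ?_ ?_
    · intro σ hσ E
      have hσ0 : σ ≠ 0 := by
        rintro rfl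
        rw [abs_zero] at hσ
        linarith
      exact (hγ σ hσ0).2.2.2.1 hσ E
    · intro σ hσ0 hσ E hE
      refine (hγ σ hσ0).2.2.2.2.1 hd3 E (lt_of_le_of_lt ?_ hE)
      have hw : 0 ≤ watson d := (watson_pos hd3).le
      have h1 : σ ^ 2 ≤ σ₁ ^ 2 := by
        rw [← sq_abs σ]
        exact pow_le_pow_left₀ (abs_nonneg σ) hσ 2
      have h2 : |σ| ^ (2 + 1 / (24 * d : ℝ)) ≤ |σ₁| ^ (2 + 1 / (24 * d : ℝ)) := by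
        apply Real.rpow_le_rpow (abs_nonneg σ)
        · rw [abs_of_pos hσ₁]
          exact hσ
        · positivity
      have h3 := mul_le_mul_of_nonneg_left h1 hw
      have h4 := mul_le_mul_of_nonneg_left h2 hC.le
      linarith
  · intro σ hσ
    obtain ⟨-, g1, -, -, g3, g4⟩ := hγ σ hσ
    exact ⟨fun hd3 => ⟨_, g3 hd3⟩, g1, g4⟩

end Pool.Agent.LE.H42J
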