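import Pool.Agent.LE.Stmts3
import Pool.Agent.Helper42_LE.Tol

/-!
# MSA: a small constant probability of failure implies localization
-/

set_option autoImplicit false
set_option linter.unusedSectionVars false

open MeasureTheory ProbabilityTheory Function

open scoped ENNReal BigOperators

noncomputable section

namespace Pool.Agent.LE.H42

open Pool.Agent.Anderson Pool.Agent.Loc Pool.Agent.Mob Pool.Agent.Helper54.Bal
  Pool.Agent.Mob.H75

variable {d : ℕ}

theorem allGoodC_congr {V V' : Site d → ℝ} {a : Site d} {L : ℕ} {m E : ℝ}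
    (h : ∀ x ∈ box a (2 * L), V x = V' x) : AllGoodC V a L m E ↔ AllGoodC V' a L m E := by
  unfold AllGoodC
  refine forall₂_congr fun s hs => ?_
  have h1 : ∀ x ∈ box s L, V x = V' x := by
    intro x hx
    apply h
    rw [mem_box] at hs hx ⊢
    have := sd_triangle a s x
    omega
  rw [RM_congr h1]
  simp only [gr_congr h1]

theorem msa (hMsp : MspStmt) (hMsn : MsnStmt) : MsaStmt := by
  intro d C₀ σ E m hC hσ hm
  have hν := bddDens_gl hσ
  set ρ : ℝ := 1 / |σ| with hρdef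
  have hρ : 0 < ρ := hν.1
  obtain ⟨L₀, hL₀⟩ := hMsn d ρ m hρ hm
  set B : ℝ := 209 ^ (2 * d) with hB
  have hB1 : 1 ≤ B := one_le_pow₀ (by norm_num)
  refine ⟨1 / (4 * B), by positivity, L₀, ?_⟩
  intro L hL hinit
  obtain ⟨hL1, hsmall, hlarge⟩ := hL₀ L hL
  have h52 : ∀ k : ℕ, 1 ≤ 52 ^ k * L := fun k =>
    Nat.succ_le_of_lt (Nat.mul_pos (pow_pos (by norm_num) k) hL1)
  have hcast : ∀ k : ℕ, ((52 ^ k * L : ℕ) : ℝ) = 52 ^ k * (L : ℝ) := fun k => by push_cast; ring
  have hprod : ∀ k : ℕ, m / 13 ^ k * ((52 ^ k * L : ℕ) : ℝ) = 4 ^ k * (m * L) := by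
    intro k
    rw [hcast]
    have h1 : (52 : ℝ) ^ k = 4 ^ k * 13 ^ k := by rw [← mul_pow]; norm_num
    rw [h1]
    field_simp
  -- the iteration
  have hiter : ∀ k : ℕ, PP d (gl σ) {V | ¬ AllGoodC V 0 (52 ^ k * L) (m / 13 ^ k) E} ≤
      ENNReal.ofReal (1 / (2 * B) * (1 / 2) ^ (2 ^ k)) := by
    intro k
    induction k with
    | zero =>
      rw [pow_zero, pow_zero, one_mul, div_one, pow_zero, pow_one]
      refine (PP_le_PL (Λ := box (0 : Site d) (2 * L)) ?_).trans (hinit.trans (le_of_eq ?_))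
      · intro V V' h
        exact not_congr (allGoodC_congr h)
      · congr 1
        field_simp
        norm_num
    | succ k ih =>
      obtain ⟨hs1, hs2⟩ := hsmall k
      have key := hMsp d (gl σ) ρ hν E (m / 13 ^ k) (1 / (2 * B) * (1 / 2) ^ (2 ^ k))
        (52 ^ k * L) (h52 k) (by positivity) (by positivity) (by
          rw [hprod, hcast]
          exact hs1) ih
      have e1 : 52 ^ (k + 1) * L = 52 * (52 ^ k * L) := by ring
      have e2 : m / 13 ^ (k + 1) = m / 13 ^ k / 13 := by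
        rw [div_div, pow_succ]
      rw [e1, e2]
      refine key.trans (ENNReal.ofReal_le_ofReal ?_)
      rw [hprod, hcast]
      rw [← hB]
      have e3 : B * (1 / (2 * B) * (1 / 2) ^ (2 ^ k)) ^ 2 =
          1 / (4 * B) * (1 / 2) ^ (2 ^ (k + 1)) := by
        rw [mul_pow, ← pow_mul, ← pow_succ]
        field_simp
        norm_num
      rw [e3]
      have e4 : 1 / (2 * B) * (1 / 2 : ℝ) ^ (2 ^ (k + 1)) =
          1 / (4 * B) * (1 / 2) ^ (2 ^ (k + 1)) + 1 / (4 * B) * (1 / 2) ^ (2 ^ (k + 1)) := by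
        field_simp
        norm_num
      rw [e4]
      linarith
  -- conclusion
  apply tol d C₀ σ E hC hσ
  intro A
  obtain ⟨k, hk1, hk2, hk3⟩ := hlarge A
  refine ⟨52 ^ k * L, hk1, ?_⟩
  have hmeas : MeasurableSet {V : Site d → ℝ | ¬ ((RM V (box 0 (52 ^ k * L)) E).det ≠ 0 ∧
      ∀ u, sd 0 u = 52 ^ k * L →
        |gr V (box 0 (52 ^ k * L)) E 0 u| ≤ ((52 ^ k * L : ℕ) : ℝ) ^ (-(A : ℝ)))} := by
    have h : {V : Site d → ℝ | (RM V (box 0 (52 ^ k * L)) E).det ≠ 0 ∧
        ∀ u, sd 0 u = 52 ^ k * L →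
          |gr V (box 0 (52 ^ k * L)) E 0 u| ≤ ((52 ^ k * L : ℕ) : ℝ) ^ (-(A : ℝ))} =
        {V | (RM V (box 0 (52 ^ k * L)) E).det ≠ 0} ∩ ⋂ u : Site d,
          {V | sd 0 u = 52 ^ k * L → |gr V (box 0 (52 ^ k * L)) E 0 u| ≤
            ((52 ^ k * L : ℕ) : ℝ) ^ (-(A : ℝ))} := by
      ext V
      simp only [Set.mem_ofPred_eq, Set.mem_inter_iff, Set.mem_iInter]
    refine MeasurableSet.compl (s := {V : Site d → ℝ | (RM V (box 0 (52 ^ k * L)) E).det ≠ 0 ∧
      ∀ u, sd 0 u = 52 ^ k * L →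
        |gr V (box 0 (52 ^ k * L)) E 0 u| ≤ ((52 ^ k * L : ℕ) : ℝ) ^ (-(A : ℝ))}) ?_
    rw [h]
    apply MeasurableSet.inter
    · exact (measurableSet_eq_fun (continuous_det _ E).measurable measurable_const).compl
    · apply MeasurableSet.iInter
      intro u
      by_cases hu : sd 0 u = 52 ^ k * L
      · simp only [hu, true_imp_iff]
        exact measurableSet_le (measurable_gr _ E 0 u).abs measurable_const
      · simp only [hu, false_imp_iff]
        exact MeasurableSet.univ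
  rw [PL_eq_PP hmeas (by
    intro V V' h
    simp only [Set.mem_ofPred_eq]
    rw [RM_congr h]
    simp only [gr_congr h])]
  calc _ ≤ PP d (gl σ) {V | ¬ AllGoodC V 0 (52 ^ k * L) (m / 13 ^ k) E} := by
        apply measure_mono
        intro V hV hgood
        apply hV
        obtain ⟨h1, h2⟩ := hgood 0 (mem_box.2 (by rw [sd_self]; omega))
        refine ⟨h1, fun u hu => (h2 u hu).trans ?_⟩
        rw [neg_mul, hprod]
        exact hk3
    _ ≤ ENNReal.ofReal (1 / (2 * B) * (1 / 2) ^ (2 ^ k)) := hiter k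
    _ ≤ _ := by
        apply ENNReal.ofReal_le_ofReal
        refine le_trans ?_ hk2
        have h3 : 1 / (2 * B) ≤ 1 := by
          rw [div_le_one (by positivity)]
          linarith
        have h4 : (0 : ℝ) ≤ (1 / 2) ^ (2 ^ k) := by positivity
        nlinarith

end Pool.Agent.LE.H42
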