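import Pool.Agent.Helper48_Loc.Null
import Pool.Agent.Helper48_Loc.GaussLaw

/-!
# ONE: the one site inequality in a finite set
-/

set_option autoImplicit false
set_option linter.unusedSectionVars false

open MeasureTheory ProbabilityTheory Function

open scoped ENNReal BigOperators

noncomputable section

namespace Pool.Agent.LE.H42

open Pool.Agent.Anderson Pool.Agent.Loc

variable {d : ℕ} {ν : Measure ℝ} [IsProbabilityMeasure ν] {ρ : ℝ}

/-- dependence of the Green function on the potential at one site -/
theorem gr_update {V₀ : Site d → ℝ} {Λ : Finset (Site d)} {E : ℝ} {u : Site d} {s : ℝ}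
    (hu : u ∈ Λ) (h0 : (RM V₀ Λ E).det ≠ 0)
    (h1 : (RM (update V₀ u (V₀ u + s)) Λ E).det ≠ 0) {x y : Site d} (hx : x ∈ Λ) (hy : y ∈ Λ) :
    1 - s * gr V₀ Λ E u u ≠ 0 ∧
    gr (update V₀ u (V₀ u + s)) Λ E u y * (1 - s * gr V₀ Λ E u u) = gr V₀ Λ E u y ∧
    gr (update V₀ u (V₀ u + s)) Λ E x u * (1 - s * gr V₀ Λ E u u) = gr V₀ Λ E x u ∧
    gr (update V₀ u (V₀ u + s)) Λ E x y * (1 - s * gr V₀ Λ E u u) =
      gr V₀ Λ E x y + s * (gr V₀ Λ E x u * gr V₀ Λ E u y - gr V₀ Λ E x y * gr V₀ Λ E u u) := by
  set V' := update V₀ u (V₀ u + s) with hV'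
  have hV : ∀ w : Site d, V' w - V₀ w = (if w = u then s else 0) := by
    intro w
    rw [hV']
    by_cases h2 : w = u
    · subst h2; simp
    · simp [h2]
  have key : ∀ a ∈ Λ, ∀ b ∈ Λ, gr V' Λ E a b = gr V₀ Λ E a b +
      s * gr V₀ Λ E a u * gr V' Λ E u b := by
    intro a ha b hb
    have e1 := gr_perturb h0 h1 ha hb
    simp_rw [hV, mul_ite, mul_zero, ite_mul, zero_mul] at e1
    rw [Finset.sum_ite_eq', if_pos hu] at e1
    linear_combination (-1) * e1
  have k1 : ∀ b ∈ Λ, gr V' Λ E u b * (1 - s * gr V₀ Λ E u u) = gr V₀ Λ E u b := by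
    intro b hb
    linear_combination key u hu b hb
  have hl : 1 - s * gr V₀ Λ E u u ≠ 0 := by
    intro hc
    have h2 := k1 u hu
    rw [hc, mul_zero] at h2
    rw [← h2, mul_zero, sub_zero] at hc
    exact one_ne_zero hc
  refine ⟨hl, k1 y hy, ?_, ?_⟩
  · rw [gr_symm V' Λ E x u, gr_symm V₀ Λ E x u]
    exact k1 x hx
  · have e2 := key x hx y hy
    have e3 := k1 y hy
    linear_combination (1 - s * gr V₀ Λ E u u) * e2 + s * gr V₀ Λ E x u * e3

theorem one_site_ratio (hν : BddDens ν ρ) (V : Site d → ℝ) (Λ : Finset (Site d)) (E : ℝ)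
    {x u y : Site d} (hx : x ∈ Λ) (hu : u ∈ Λ) (hy : y ∈ Λ) (t : ℝ) :
    ν {z : ℝ | Real.exp t * |gr (update V u z) Λ E x y| <
      |gr (update V u z) Λ E x u| * |gr (update V u z) Λ E u y|} ≤
      ENNReal.ofReal (8 * ρ * Real.exp (-t)) := by
  have hρ := hν.1
  by_cases hall : ∀ z : ℝ, (RM (update V u z) Λ E).det = 0
  · have : {z : ℝ | Real.exp t * |gr (update V u z) Λ E x y| <
        |gr (update V u z) Λ E x u| * |gr (update V u z) Λ E u y|} = ∅ := by
      ext z
      simp only [Set.mem_ofPred_eq, Set.mem_empty_iff_false, iff_false, not_lt]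
      have h0 : gr (update V u z) Λ E x u = 0 := by
        by_contra hc
        exact (gr_ne_zero hc).2.2 (hall z)
      rw [h0, abs_zero, zero_mul]
      positivity
    rw [this, measure_empty]
    exact zero_le
  push Not at hall
  obtain ⟨z₀, hdet0⟩ := hall
  set V₀ := update V u z₀ with hV₀
  set g := gr V₀ Λ E u u with hg
  set p := gr V₀ Λ E x y with hp
  set a := gr V₀ Λ E x u with ha
  set b := gr V₀ Λ E u y with hb
  set q := a * b - p * g with hq
  have hsub : {z : ℝ | Real.exp t * |gr (update V u z) Λ E x y| <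
        |gr (update V u z) Λ E x u| * |gr (update V u z) Λ E u y|} ⊆
      Set.Icc (z₀ - p / q - 2 * Real.exp (-t)) (z₀ - p / q + 2 * Real.exp (-t)) ∪
      Set.Icc (z₀ + 1 / g - 2 * Real.exp (-t)) (z₀ + 1 / g + 2 * Real.exp (-t)) := by
    intro z hz
    rw [Set.mem_ofPred_eq] at hz
    have hne : gr (update V u z) Λ E x u ≠ 0 := by
      intro h0
      rw [h0, abs_zero, zero_mul] at hz
      exact absurd hz (not_lt.2 (by positivity))
    have hdet' := (gr_ne_zero hne).2.2
    set s := z - z₀ with hs
    have hupd : update V u z = update V₀ u (V₀ u + s) := by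
      rw [hV₀, update_self, update_idem, hs, add_sub_cancel]
    rw [hupd] at hz hdet'
    obtain ⟨hl, e1, e2, e3⟩ := gr_update hu hdet0 hdet' hx hy
    rw [← hg, ← hb] at e1
    rw [← hg, ← ha] at e2
    rw [← hp, ← hg, ← ha, ← hb, ← hq] at e3
    rw [← hg] at hl
    set l := 1 - s * g with hl'
    have hexp := Real.exp_pos t
    have hlpos : 0 < |l| := abs_pos.2 hl
    have e4 : l * q + (p + s * q) * g = a * b := by
      rw [hl', hq]; ring
    have e5 : Real.exp t * |p + s * q| * |l| < |l| * |q| + |p + s * q| * |g| := by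
      calc Real.exp t * |p + s * q| * |l|
          = Real.exp t * |gr (update V₀ u (V₀ u + s)) Λ E x y| * (|l| * |l|) := by
            rw [← e3, abs_mul]; ring
        _ < |gr (update V₀ u (V₀ u + s)) Λ E x u| * |gr (update V₀ u (V₀ u + s)) Λ E u y| *
            (|l| * |l|) := by
            gcongr
        _ = |a * b| := by rw [← e1, ← e2, abs_mul, abs_mul, abs_mul]; ring
        _ = |l * q + (p + s * q) * g| := by rw [e4]
        _ ≤ |l| * |q| + |p + s * q| * |g| := by
            rw [← abs_mul, ← abs_mul]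
            exact abs_add_le _ _
    have hem : Real.exp (-t) = 1 / Real.exp t := by rw [Real.exp_neg, one_div]
    rcases le_total (|p + s * q| * |g|) (|l| * |q|) with hc | hc
    · left
      have h6 : Real.exp t * |p + s * q| < 2 * |q| := by
        have : Real.exp t * |p + s * q| * |l| < 2 * |q| * |l| := by linarith
        exact lt_of_mul_lt_mul_right this hlpos.le
      have hq0 : q ≠ 0 := by
        intro h0
        have h9 : |q| = 0 := by rw [h0, abs_zero]
        have h10 : (0 : ℝ) ≤ Real.exp t * |p + s * q| := by positivity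
        rw [h9] at h6
        linarith
      have h7 : |s + p / q| ≤ 2 * Real.exp (-t) := by
        rw [hem]
        have h8 : s + p / q = (p + s * q) / q := by field_simp; ring
        rw [h8, abs_div, div_le_iff₀ (abs_pos.2 hq0), mul_one_div, div_mul_eq_mul_div,
          le_div_iff₀ hexp]
        linarith
      rw [abs_le] at h7
      constructor <;> linarith [h7.1, h7.2]
    · right
      have hg0 : g ≠ 0 := by
        intro h0
        rw [h0, abs_zero, mul_zero, add_zero] at e5
        rw [h0, abs_zero, mul_zero] at hc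
        have : (0 : ℝ) ≤ Real.exp t * |p + s * q| * |l| := by positivity
        linarith
      have hp0 : 0 < |p + s * q| := by
        rcases eq_or_lt_of_le (abs_nonneg (p + s * q)) with h0 | h0
        · rw [← h0, zero_mul] at hc
          rw [← h0, mul_zero, zero_mul, zero_mul, add_zero] at e5
          linarith
        · exact h0
      have h6 : Real.exp t * |l| < 2 * |g| := by
        have : Real.exp t * |l| * |p + s * q| < 2 * |g| * |p + s * q| := by linarith
        exact lt_of_mul_lt_mul_right this hp0.le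
      have h7 : |s - 1 / g| ≤ 2 * Real.exp (-t) := by
        rw [hem]
        have h8 : s - 1 / g = -l / g := by rw [hl']; field_simp; ring
        rw [h8, abs_div, abs_neg, div_le_iff₀ (abs_pos.2 hg0), mul_one_div, div_mul_eq_mul_div,
          le_div_iff₀ hexp]
        linarith
      rw [abs_le] at h7
      constructor <;> linarith [h7.1, h7.2]
  refine (measure_mono hsub).trans ((measure_union_le _ _).trans ((add_le_add (hν.2 _ _)
    (hν.2 _ _)).trans (le_of_eq ?_)))
  have hexp := Real.exp_pos (-t)
  rw [← ENNReal.ofReal_add (mul_nonneg hρ.le (by linarith)) (mul_nonneg hρ.le (by linarith))]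
  congr 1
  ring

/-- The one site inequality: for a finite set and a fixed energy. -/
theorem one (hν : BddDens ν ρ) (E : ℝ) (Λ : Finset (Site d)) {x u y : Site d} (hx : x ∈ Λ)
    (hu : u ∈ Λ) (hy : y ∈ Λ) (t : ℝ) :
    PL ν Λ {V | Real.exp t * |gr V Λ E x y| < |gr V Λ E x u| * |gr V Λ E u y|} ≤
      ENNReal.ofReal (8 * ρ * Real.exp (-t)) := by
  have hS : MeasurableSet
      {V : Site d → ℝ | Real.exp t * |gr V Λ E x y| < |gr V Λ E x u| * |gr V Λ E u y|} :=
    measurableSet_lt (measurable_const.mul (measurable_gr Λ E x y).abs)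
      ((measurable_gr Λ E x u).abs.mul (measurable_gr Λ E u y).abs)
  rw [← lintegral_indicator_one hS]
  apply PL_le_of_marg (S := {u})
  · intro z hz
    rw [Finset.mem_singleton] at hz
    rw [hz]
    exact hu
  · exact measurable_one.indicator hS
  · intro V
    rw [lmarginal_singleton]
    have h1 : ∀ z : ℝ, Set.indicator
        {V : Site d → ℝ | Real.exp t * |gr V Λ E x y| < |gr V Λ E x u| * |gr V Λ E u y|}
        (1 : (Site d → ℝ) → ℝ≥0∞) (update V u z) =
        Set.indicator {z : ℝ | Real.exp t * |gr (update V u z) Λ E x y| <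
          |gr (update V u z) Λ E x u| * |gr (update V u z) Λ E u y|} 1 z := fun z => rfl
    simp_rw [h1]
    have h2 : MeasurableSet {z : ℝ | Real.exp t * |gr (update V u z) Λ E x y| <
        |gr (update V u z) Λ E x u| * |gr (update V u z) Λ E u y|} := (measurable_update V) hS
    rw [lintegral_indicator_one h2]
    exact one_site_ratio hν V Λ E hx hu hy t

end Pool.Agent.LE.H42
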