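import Pool.Agent.Helper42_LE.One
import Pool.Agent.LE.Stmts2

/-!
# ONE: the statement `OneTail`
-/

set_option autoImplicit false

open MeasureTheory ProbabilityTheory Function

open scoped ENNReal BigOperators

noncomputable section

namespace Pool.Agent.LE.H42

open Pool.Agent.Anderson Pool.Agent.Loc

theorem oneTail {d : ℕ} {ν : Measure ℝ} [IsProbabilityMeasure ν] {ρ : ℝ} (hν : BddDens ν ρ)
    (E : ℝ) : OneTail d ν E (8 * ρ) := by
  intro Λ x u y t hx hu hy ht
  have hρ := hν.1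
  refine (one hν E Λ hx hu hy t).trans (ENNReal.ofReal_le_ofReal ?_)
  gcongr
  linarith

theorem oneTail_gl {d : ℕ} {σ : ℝ} (hσ : σ ≠ 0) (E : ℝ) : ∃ C, OneTail d (gl σ) E C :=
  ⟨_, oneTail (bddDens_gl hσ) E⟩

end Pool.Agent.LE.H42
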